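import Pool.Agent.T6.H54.FlipDefs

set_option autoImplicit false

open Set Filter Topology

namespace Pool.Agent.T6.H54.Flip

universe u v

variable {Λ : AddSubgroup S} {Y : Type v}

/-- a lift of the near action on `S ⊔ Y` -/
structure Lift (Λ : AddSubgroup S) (Y : Type v) where
  R : IEThat Λ →* Equiv.Perm (S ⊕ Y)
  near : ∀ g : IEThat Λ, {z | R g z ≠ Equiv.Perm.sumCongr (g : Equiv.Perm S) 1 z}.Finite
  eq : ∀ g h : IEThat Λ, {x | g.1 x ≠ h.1 x}.Finite → R g = R h

/-- elements with support in `U`, up to a finite set -/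
def Gam (Λ : AddSubgroup S) (U : Set S) : Set (IEThat Λ) := {g | {x | x ∉ U ∧ g.1 x ≠ x}.Finite}

/-- points with infinite orbit under some element supported in `U` -/
def XX (L : Lift Λ Y) (U : Set S) : Set (S ⊕ Y) :=
  {z | ∃ g ∈ Gam Λ U, ∀ n : ℕ, 0 < n → (L.R g ^ n) z ≠ z}

lemma Gam_mono {U V : Set S} (h : U ⊆ V) : Gam Λ U ⊆ Gam Λ V := by
  intro g hg
  refine (show {x | x ∉ U ∧ g.1 x ≠ x}.Finite from hg).subset fun x hx => ⟨fun hU => hx.1 (h hU), hx.2⟩

lemma XX_mono (L : Lift Λ Y) {U V : Set S} (h : U ⊆ V) : XX L U ⊆ XX L V := by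
  rintro z ⟨g, hg, hn⟩
  exact ⟨g, Gam_mono h hg, hn⟩

lemma Gam_conj {U : Set S} {g : IEThat Λ} (hg : g ∈ Gam Λ U) (s : IEThat Λ) :
    s * g * s⁻¹ ∈ Gam Λ (s.1 '' U) := by
  refine ((show {x | x ∉ U ∧ g.1 x ≠ x}.Finite from hg).image s.1).subset fun x hx => ?_
  refine ⟨s.1⁻¹ x, ⟨fun h => hx.1 ⟨_, h, by simp⟩, fun h => hx.2 ?_⟩, by simp⟩
  simp only [Subgroup.coe_mul, Equiv.Perm.mul_apply, Subgroup.coe_inv]
  rw [h]
  simp

lemma XX_conj (L : Lift Λ Y) {U : Set S} {z : S ⊕ Y} (hz : z ∈ XX L U) (s : IEThat Λ) :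
    L.R s z ∈ XX L (s.1 '' U) := by
  obtain ⟨g, hg, hn⟩ := hz
  refine ⟨s * g * s⁻¹, Gam_conj hg s, fun n hn0 h => hn n hn0 ?_⟩
  rw [← map_pow, conj_pow, map_mul, map_mul] at h
  simp only [Equiv.Perm.mul_apply] at h
  have h1 : (L.R s⁻¹) ((L.R s) z) = z := by
    rw [map_inv]; simp
  rw [h1] at h
  have := (L.R s).injective h
  rwa [map_pow] at this

lemma finite_inter_supp {U V : Set S} (hUV : (U ∩ V).Finite) {g h : IEThat Λ} (hg : g ∈ Gam Λ U)
    (hh : h ∈ Gam Λ V) : ({x | g.1 x ≠ x} ∩ {x | h.1 x ≠ x}).Finite := by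
  refine ((hUV.union hg).union hh).subset fun x hx => ?_
  by_cases hxU : x ∈ U
  · by_cases hxV : x ∈ V
    · exact Or.inl (Or.inl ⟨hxU, hxV⟩)
    · exact Or.inr ⟨hxV, hx.2⟩
  · exact Or.inl (Or.inr ⟨hxU, hx.1⟩)

lemma near_commute {U V : Set S} (hUV : (U ∩ V).Finite) {g h : IEThat Λ} (hg : g ∈ Gam Λ U)
    (hh : h ∈ Gam Λ V) : {x | (g * h).1 x ≠ (h * g).1 x}.Finite := by
  have hf := finite_inter_supp hUV hg hh
  refine ((hf.union (hf.preimage (f := h.1) h.1.injective.injOn)).union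
    (hf.preimage (f := g.1) g.1.injective.injOn)).subset fun x hx => ?_
  simp only [mem_ofPred_eq, Subgroup.coe_mul, Equiv.Perm.mul_apply] at hx
  by_contra hcon
  simp only [mem_union, not_or, mem_inter_iff, mem_ofPred_eq, mem_preimage, not_and_or,
    not_not] at hcon
  obtain ⟨⟨h1, h2⟩, h3⟩ := hcon
  apply hx
  by_cases hgx : g.1 x = x
  · rw [hgx]
    rcases h2 with h2 | h2
    · exact h2
    · have := h.1.injective h2
      rw [this, hgx]
  · rcases h1 with h1 | h1
    · exact absurd h1 hgx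
    · rw [h1]
      rcases h3 with h3 | h3
      · exact absurd (g.1.injective h3) hgx
      · exact h3.symm

/-- **Disjointness**: a point with infinite orbit under an element supported in `U` is fixed by the
elements supported in `V`, `U ∩ V` finite. -/
lemma fix_of_disj (L : Lift Λ Y) {U V : Set S} (hUV : (U ∩ V).Finite) {z : S ⊕ Y}
    (hz : z ∈ XX L U) {h : IEThat Λ} (hh : h ∈ Gam Λ V) : L.R h z = z := by
  by_contra hcon
  obtain ⟨g, hg, hn⟩ := hz
  have hcomm : L.R g * L.R h = L.R h * L.R g := by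
    rw [← map_mul, ← map_mul]
    exact L.eq _ _ (near_commute hUV hg hh)
  have hfin : ({w | L.R g w ≠ w} ∩ {w | L.R h w ≠ w}).Finite := by
    refine (((L.near g).union (L.near h)).union
      ((finite_inter_supp hUV hg hh).image Sum.inl)).subset fun w hw => ?_
    by_contra hcon
    simp only [mem_union, not_or, mem_ofPred_eq, not_not] at hcon
    obtain ⟨⟨h1, h2⟩, h3⟩ := hcon
    have hw1 := hw.1
    have hw2 := hw.2
    rw [mem_ofPred_eq, h1] at hw1
    rw [mem_ofPred_eq, h2] at hw2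
    rcases w with x | y
    · apply h3
      refine ⟨x, ⟨?_, ?_⟩, rfl⟩
      · simp only [mem_ofPred_eq]
        intro h; apply hw1; simp [h]
      · simp only [mem_ofPred_eq]
        intro h; apply hw2; simp [h]
    · exact hw1 (by simp)
  have hinj : Function.Injective (fun n : ℕ => (L.R g ^ n) z) := by
    intro m n hmn
    by_contra hne
    wlog hlt : m < n generalizing m n with H
    · exact H hmn.symm (Ne.symm hne) (lt_of_le_of_ne (not_lt.1 hlt) (Ne.symm hne))
    apply hn (n - m) (by omega)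
    simp only at hmn
    have : (L.R g ^ n) z = (L.R g ^ m) ((L.R g ^ (n - m)) z) := by
      rw [← Equiv.Perm.mul_apply, ← pow_add]; congr 2; omega
    rw [this] at hmn
    exact ((L.R g ^ m).injective hmn).symm
  refine Set.infinite_range_of_injective hinj (hfin.subset ?_)
  rintro _ ⟨n, rfl⟩
  refine ⟨?_, ?_⟩
  · simp only [mem_ofPred_eq]
    intro h
    apply hn 1 one_pos
    rw [← Equiv.Perm.mul_apply, ← pow_succ', pow_succ, Equiv.Perm.mul_apply] at h
    rw [pow_one]
    exact (L.R g ^ n).injective h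
  · simp only [mem_ofPred_eq]
    intro h'
    apply hcon
    have hc : L.R h * L.R g ^ n = L.R g ^ n * L.R h :=
      ((show Commute (L.R g) (L.R h) from hcomm).pow_left n).symm
    rw [← Equiv.Perm.mul_apply, hc, Equiv.Perm.mul_apply] at h'
    exact (L.R g ^ n).injective h'

/-- **Coverage**: if all points of `W` have infinite orbit under `g`, then all but finitely many
points of `W` have infinite orbit under `R g`. -/
lemma coverage (L : Lift Λ Y) {W : Set S} {g : IEThat Λ} (hg : g ∈ Gam Λ W)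
    (hW : ∀ x ∈ W, ∀ n : ℕ, 0 < n → (g.1 ^ n) x ≠ x) :
    {x : S | x ∈ W ∧ Sum.inl x ∉ XX L W}.Finite := by
  set f : S ⊕ Y → S ⊕ Y := (fun z => L.R g z) with hf
  set E := {z | L.R g z ≠ Equiv.Perm.sumCongr (g : Equiv.Perm S) 1 z} with hE
  have hEfin : E.Finite := L.near g
  have hfin : (⋃ e ∈ {e ∈ E | ∃ n : ℕ, 0 < n ∧ f^[n] e = e}, range fun n : ℕ => f^[n] e).Finite := by
    refine Set.Finite.biUnion (hEfin.subset fun e he => he.1) ?_
    rintro e ⟨-, n, hn, hen⟩
    refine ((Set.finite_Iio n).image fun i => f^[i] e).subset ?_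
    rintro _ ⟨m, rfl⟩
    have hp : Function.IsPeriodicPt f n e := hen
    exact ⟨m % n, Nat.mod_lt _ hn, hp.iterate_mod_apply m⟩
  refine (hfin.preimage (f := Sum.inl) Sum.inl_injective.injOn).subset fun x hx => ?_
  obtain ⟨hxW, hxX⟩ := hx
  simp only [XX, mem_ofPred_eq, not_exists, not_and, not_forall, not_not] at hxX
  obtain ⟨n, hn, hx⟩ := hxX g hg
  have hit : ∀ k : ℕ, ⇑(L.R g ^ k) = f^[k] := fun k => by
    exact (Equiv.Perm.iterate_eq_pow (L.R g) k).symm
  rw [hit] at hx
  -- the orbit meets `E`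
  have hmeet : ∃ j < n, f^[j] (Sum.inl x) ∈ E := by
    by_contra hcon
    push Not at hcon
    have key : ∀ j ≤ n, f^[j] (Sum.inl x) = Sum.inl ((g.1 ^ j) x) := by
      intro j
      induction j with
      | zero => intro _; simp
      | succ j ih =>
        intro hj
        have h1 := hcon j (by omega)
        rw [hE, mem_ofPred_eq, not_not] at h1
        rw [Function.iterate_succ', Function.comp_apply]
        change L.R g (f^[j] (Sum.inl x)) = _
        rw [h1, ih (by omega)]
        simp [pow_succ']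
    have h2 := key n le_rfl
    rw [hx] at h2
    exact hW x hxW n hn (Sum.inl_injective h2).symm
  obtain ⟨j, hj, hjE⟩ := hmeet
  have hback : f^[n - j] (f^[j] (Sum.inl x)) = Sum.inl x := by
    rw [← Function.iterate_add_apply, Nat.sub_add_cancel hj.le, hx]
  refine mem_iUnion₂.2 ⟨f^[j] (Sum.inl x), ⟨hjE, n, hn, ?_⟩, ⟨n - j, hback⟩⟩
  rw [← Function.iterate_add_apply, Nat.add_comm, Function.iterate_add_apply, hx]

end Pool.Agent.T6.H54.Flip
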