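import Mathlib

/-!
# Interval exchanges with flips modulo finitely supported permutations: definitions
-/

set_option autoImplicit false

open Set Filter Topology

namespace Pool.Agent.T6.H54.Flip

universe u v

/-- The circle `S = ℝ / ℤ`. -/
abbrev S : Type := AddCircle (1 : ℝ)

/-- The normal subgroup of finitely supported permutations of `X`. -/
def FinSupp (X : Type u) : Subgroup (Equiv.Perm X) where
  carrier := {σ | {x | σ x ≠ x}.Finite}
  one_mem' := by simp
  mul_mem' := by
    intro a b ha hb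
    refine (ha.union hb).subset fun x hx => ?_
    by_contra hcon
    simp only [mem_union, mem_ofPred_eq, not_or, not_not] at hcon
    exact hx (by rw [Equiv.Perm.mul_apply, hcon.2, hcon.1])
  inv_mem' := by
    intro a ha
    refine ha.subset fun x hx => ?_
    simp only [mem_ofPred_eq] at hx ⊢
    intro h
    exact hx (by rw [Equiv.Perm.inv_eq_iff_eq, h])

instance FinSupp.normal (X : Type u) : (FinSupp X).Normal := by
  constructor
  intro a ha g
  change {x | (g * a * g⁻¹) x ≠ x}.Finite
  refine (Set.Finite.image g (show {x | a x ≠ x}.Finite from ha)).subset fun x hx => ?_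
  refine ⟨g⁻¹ x, ?_, by simp⟩
  simp only [mem_ofPred_eq, Equiv.Perm.mul_apply] at hx ⊢
  intro h
  exact hx (by rw [h]; simp)

/-- Permutations of `X` modulo finitely supported permutations. -/
abbrev NearPerm (X : Type u) : Type u := Equiv.Perm X ⧸ FinSupp X

/-- Letting a near permutation of `X` act on the disjoint union `X ⊔ Y`, trivially on `Y`. -/
def extend (X : Type u) (Y : Type v) : NearPerm X →* NearPerm (X ⊕ Y) :=
  QuotientGroup.map (FinSupp X) (FinSupp (X ⊕ Y))
    ((Equiv.Perm.sumCongrHom X Y).comp (MonoidHom.inl _ _)) (by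
      intro a ha
      change {z | (Equiv.Perm.sumCongr a 1) z ≠ z}.Finite
      refine (Set.Finite.image Sum.inl (show {x | a x ≠ x}.Finite from ha)).subset fun z hz => ?_
      rcases z with x | y
      · refine ⟨x, ?_, rfl⟩
        simp only [mem_ofPred_eq, Equiv.Perm.sumCongr_apply, Sum.map_inl] at hz ⊢
        intro h
        exact hz (by rw [h])
      · simp at hz)

/-- Near `x` the map `f` has the form `y ↦ y + l` or `y ↦ -y + l` with `l ∈ Λ`. -/
def LocallyFlip (Λ : AddSubgroup S) (f : S → S) (x : S) : Prop :=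
  ∃ l ∈ Λ, (∀ᶠ y in 𝓝 x, f y = y + l) ∨ (∀ᶠ y in 𝓝 x, f y = -y + l)

/-- Off a finite subset of `Λ` the map `f` is locally of the form `x ↦ ± x + l` with `l ∈ Λ`. -/
def IsFlipIET (Λ : AddSubgroup S) (f : S → S) : Prop :=
  ∃ F : Finset S, (∀ x ∈ F, x ∈ Λ) ∧ ∀ x, x ∉ F → LocallyFlip Λ f x

section basic

variable {Λ : AddSubgroup S}

instance nontrivial_S : Nontrivial S := by
  refine ⟨⟨((0:ℝ) : S), ((1/2:ℝ) : S), fun h => ?_⟩⟩
  rw [AddCircle.coe_eq_coe_iff_of_mem_Ico (a := 0) (by norm_num) (by norm_num)] at h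
  norm_num at h

lemma finite_sol (l l' : S) : {y : S | y + l = -y + l'}.Finite := by
  by_cases h : ∃ y0 : S, y0 + l = -y0 + l'
  · obtain ⟨y0, hy0⟩ := h
    refine ((AddCircle.finite_torsion (1:ℝ) (n := 2) (by norm_num)).image (fun u => u + y0)).subset
      fun y hy => ?_
    refine ⟨y - y0, ?_, by simp⟩
    simp only [mem_ofPred_eq] at hy ⊢
    have h1 : y + y = l' - l := by
      have : y + l + y = l' := by rw [hy]; abel
      rw [← this]; abel
    have h2 : y0 + y0 = l' - l := by
      have : y0 + l + y0 = l' := by rw [hy0]; abel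
      rw [← this]; abel
    rw [two_nsmul]
    have : y - y0 + (y - y0) = (y + y) - (y0 + y0) := by abel
    rw [this, h1, h2, sub_self]
  · have : {y : S | y + l = -y + l'} = ∅ := by
      ext y
      simp only [mem_ofPred_eq, mem_empty_iff_false, iff_false]
      exact fun hy => h ⟨y, hy⟩
    rw [this]
    exact finite_empty

lemma not_both {f : S → S} {x l l' : S} (h1 : ∀ᶠ y in 𝓝 x, f y = y + l)
    (h2 : ∀ᶠ y in 𝓝 x, f y = -y + l') : False := by
  have h : {y : S | y + l = -y + l'} ∈ 𝓝 x := by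
    filter_upwards [h1, h2] with y hy1 hy2
    rw [← hy1, hy2]
  exact infinite_of_mem_nhds x h (finite_sol l l')

/-- On a preconnected set avoiding the exceptional set there is a single formula. -/
lemma single {f : S → S} {A : Set S} (hA : IsPreconnected A) (hne : A.Nonempty)
    (hloc : ∀ x ∈ A, LocallyFlip Λ f x) :
    ∃ l ∈ Λ, (∀ y ∈ A, f y = y + l) ∨ (∀ y ∈ A, f y = -y + l) := by
  obtain ⟨x0, hx0⟩ := hne
  let U : S → Set S := fun l => {x | ∀ᶠ y in 𝓝 x, f y = y + l}
  let V : S → Set S := fun l => {x | ∀ᶠ y in 𝓝 x, f y = -y + l}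
  have hU : ∀ l, IsOpen (U l) := fun l => isOpen_setOfPred_eventually_nhds
  have hV : ∀ l, IsOpen (V l) := fun l => isOpen_setOfPred_eventually_nhds
  obtain ⟨l, hl, h | h⟩ := hloc x0 hx0
  · refine ⟨l, hl, Or.inl ?_⟩
    have key : A ⊆ U l := by
      refine IsPreconnected.subset_left_of_subset_union (hU l)
        ((isOpen_iUnion fun m => hV m).union (isOpen_iUnion fun m => isOpen_iUnion fun
          (_ : m ≠ l) => hU m)) ?_ ?_ ⟨x0, hx0, h⟩ hA
      · rw [Set.disjoint_left]
        rintro x hx (hx' | hx')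
        · obtain ⟨m, hm⟩ := mem_iUnion.1 hx'
          exact not_both hx hm
        · obtain ⟨m, hm⟩ := mem_iUnion.1 hx'
          obtain ⟨hml, hm⟩ := mem_iUnion.1 hm
          have e1 := (show ∀ᶠ y in 𝓝 x, f y = y + l from hx).self_of_nhds
          have e2 := (show ∀ᶠ y in 𝓝 x, f y = y + m from hm).self_of_nhds
          exact hml (add_left_cancel (e2.symm.trans e1))
      · intro x hx
        obtain ⟨m, hm, h' | h'⟩ := hloc x hx
        · by_cases hml : m = l
          · left; rw [← hml]; exact h'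
          · right; right
            exact mem_iUnion.2 ⟨m, mem_iUnion.2 ⟨hml, h'⟩⟩
        · right; left
          exact mem_iUnion.2 ⟨m, h'⟩
    intro y hy
    exact (show ∀ᶠ z in 𝓝 y, f z = z + l from key hy).self_of_nhds
  · refine ⟨l, hl, Or.inr ?_⟩
    have key : A ⊆ V l := by
      refine IsPreconnected.subset_left_of_subset_union (hV l)
        ((isOpen_iUnion fun m => hU m).union (isOpen_iUnion fun m => isOpen_iUnion fun
          (_ : m ≠ l) => hV m)) ?_ ?_ ⟨x0, hx0, h⟩ hA
      · rw [Set.disjoint_left]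
        rintro x hx (hx' | hx')
        · obtain ⟨m, hm⟩ := mem_iUnion.1 hx'
          exact not_both hm hx
        · obtain ⟨m, hm⟩ := mem_iUnion.1 hx'
          obtain ⟨hml, hm⟩ := mem_iUnion.1 hm
          have e1 := (show ∀ᶠ y in 𝓝 x, f y = -y + l from hx).self_of_nhds
          have e2 := (show ∀ᶠ y in 𝓝 x, f y = -y + m from hm).self_of_nhds
          exact hml (add_left_cancel (e2.symm.trans e1))
      · intro x hx
        obtain ⟨m, hm, h' | h'⟩ := hloc x hx
        · right; left
          exact mem_iUnion.2 ⟨m, h'⟩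
        · by_cases hml : m = l
          · left; rw [← hml]; exact h'
          · right; right
            exact mem_iUnion.2 ⟨m, mem_iUnion.2 ⟨hml, h'⟩⟩
    intro y hy
    exact (show ∀ᶠ z in 𝓝 y, f z = -z + l from key hy).self_of_nhds

lemma LocallyFlip.continuousAt {f : S → S} {x : S} (h : LocallyFlip Λ f x) :
    ContinuousAt f x := by
  obtain ⟨l, -, h | h⟩ := h
  · have h1 : ContinuousAt (fun y : S => y + l) x := by fun_prop
    exact h1.congr (h.mono fun y hy => hy.symm)
  · have h1 : ContinuousAt (fun y : S => -y + l) x := by fun_prop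
    exact h1.congr (h.mono fun y hy => hy.symm)

/-- near `x ∈ F` there are finitely many formulas -/
lemma four_formulas {f : S → S} (F : Finset S) (h : ∀ x, x ∉ F → LocallyFlip Λ f x) (x : S) :
    ∃ l ∈ Λ, ∃ m ∈ Λ, ∀ᶠ z in 𝓝[≠] x,
      ((f z = z + l ∨ f z = -z + l) ∨ (f z = z + m ∨ f z = -z + m)) := by
  obtain ⟨a, rfl⟩ := QuotientAddGroup.mk_surjective x
  change ∃ l ∈ Λ, ∃ m ∈ Λ, ∀ᶠ z in 𝓝[≠] (a : S), _
  have hopen : IsOpen (((F.erase (a : S) : Finset S) : Set S)ᶜ) :=
    (Finset.finite_toSet _).isClosed.isOpen_compl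
  have hpre : IsOpen ((fun t : ℝ => (t : S)) ⁻¹' (((F.erase (a : S) : Finset S) : Set S)ᶜ)) :=
    hopen.preimage (AddCircle.continuous_mk' 1)
  have hmem : a ∈ ((fun t : ℝ => (t : S)) ⁻¹' (((F.erase (a : S) : Finset S) : Set S)ᶜ)) := by
    simp
  obtain ⟨ε0, hε0, hball⟩ := Metric.isOpen_iff.1 hpre a hmem
  set ε := min ε0 (1/2) with hε
  have hεpos : 0 < ε := lt_min hε0 (by norm_num)
  have hε2 : ε ≤ 1/2 := min_le_right _ _
  have hε1 : ε ≤ ε0 := min_le_left _ _
  have hne : ∀ t : ℝ, |t - a| < ε → t ≠ a → (t : S) ∉ F := by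
    intro t ht hta hF
    have h1 : t ∈ Metric.ball a ε0 := by
      rw [Metric.mem_ball, Real.dist_eq]; linarith
    have h2 := hball h1
    simp only [mem_preimage, mem_compl_iff, Finset.mem_coe, Finset.mem_erase, not_and_or,
      not_not] at h2
    rcases h2 with h2 | h2
    · apply hta
      have h3 : ((t - a : ℝ) : S) = 0 := by rw [AddCircle.coe_sub, h2, sub_self]
      rw [AddCircle.coe_eq_zero_iff] at h3
      obtain ⟨n, hn⟩ := h3
      simp only [zsmul_eq_mul, mul_one] at hn
      rw [abs_lt] at ht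
      have h4 : (-1 : ℝ) < n := by linarith
      have h5 : (n : ℝ) < 1 := by linarith
      have h6 : -1 < n := by exact_mod_cast h4
      have h7 : n < 1 := by exact_mod_cast h5
      have h8 : n = 0 := by omega
      rw [h8] at hn
      push_cast at hn
      linarith
    · exact h2 hF
  have hr : ∃ l ∈ Λ, (∀ y ∈ (fun t : ℝ => (t : S)) '' Ioo a (a + ε), f y = y + l) ∨
      (∀ y ∈ (fun t : ℝ => (t : S)) '' Ioo a (a + ε), f y = -y + l) := by
    apply single
    · exact isPreconnected_Ioo.image _ (AddCircle.continuous_mk' 1).continuousOn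
    · exact (nonempty_Ioo.2 (by linarith)).image _
    · rintro _ ⟨t, ht, rfl⟩
      exact h _ (hne t (by rw [abs_lt]; constructor <;> linarith [ht.1, ht.2]) ht.1.ne')
  have hl : ∃ l ∈ Λ, (∀ y ∈ (fun t : ℝ => (t : S)) '' Ioo (a - ε) a, f y = y + l) ∨
      (∀ y ∈ (fun t : ℝ => (t : S)) '' Ioo (a - ε) a, f y = -y + l) := by
    apply single
    · exact isPreconnected_Ioo.image _ (AddCircle.continuous_mk' 1).continuousOn
    · exact (nonempty_Ioo.2 (by linarith)).image _
    · rintro _ ⟨t, ht, rfl⟩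
      exact h _ (hne t (by rw [abs_lt]; constructor <;> linarith [ht.1, ht.2]) ht.2.ne)
  obtain ⟨l, hlΛ, hl⟩ := hl
  obtain ⟨m, hmΛ, hm⟩ := hr
  refine ⟨l, hlΛ, m, hmΛ, ?_⟩
  have hnb : (fun t : ℝ => (t : S)) '' Ioo (a - ε) (a + ε) ∈ 𝓝 (a : S) :=
    (QuotientAddGroup.isOpenMap_coe _ isOpen_Ioo).mem_nhds
      ⟨a, ⟨by linarith, by linarith⟩, rfl⟩
  filter_upwards [mem_nhdsWithin_of_mem_nhds hnb, self_mem_nhdsWithin] with z hz hz'
  obtain ⟨t, ht, rfl⟩ := hz
  rcases lt_trichotomy t a with hta | hta | hta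
  · left
    have h1 : (t : S) ∈ (fun t : ℝ => (t : S)) '' Ioo (a - ε) a := ⟨t, ⟨ht.1, hta⟩, rfl⟩
    rcases hl with hl | hl
    · exact Or.inl (hl _ h1)
    · exact Or.inr (hl _ h1)
  · exact absurd (by rw [hta]; rfl) hz'
  · right
    have h1 : (t : S) ∈ (fun t : ℝ => (t : S)) '' Ioo a (a + ε) := ⟨t, ⟨hta, ht.2⟩, rfl⟩
    rcases hm with hl | hl
    · exact Or.inl (hl _ h1)
    · exact Or.inr (hl _ h1)

lemma map_mem {σ : Equiv.Perm S} {F : Finset S} (hF : ∀ x ∈ F, x ∈ Λ)
    (h : ∀ x, x ∉ F → LocallyFlip Λ σ x) : ∀ x ∈ F, σ x ∈ Λ := by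
  intro x0 hx0
  by_contra hcon
  set y0 := σ x0 with hy0
  obtain ⟨x, hx⟩ := exists_clusterPt_of_compactSpace (map σ.symm (𝓝[≠] y0))
  have hx' : NeBot (𝓝 x ⊓ map σ.symm (𝓝[≠] y0)) := hx
  have ht0 : Tendsto σ (𝓝 x ⊓ map σ.symm (𝓝[≠] y0)) (𝓝 y0) := by
    have h1 : Tendsto σ (map σ.symm (𝓝[≠] y0)) (𝓝 y0) := by
      rw [tendsto_map'_iff]
      have h2 : (⇑σ ∘ ⇑σ.symm) = id := by ext z; simp
      rw [h2]
      exact tendsto_id.mono_left nhdsWithin_le_nhds
    exact h1.mono_left inf_le_right
  by_cases hxF : x ∈ F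
  · obtain ⟨l, hl, m, hm, hform⟩ := four_formulas F h x
    have hne : ∀ᶠ z in 𝓝 x ⊓ map σ.symm (𝓝[≠] y0), z ≠ x := by
      have h1 : ∀ᶠ z in map σ.symm (𝓝[≠] y0), z ≠ x := by
        rw [eventually_map]
        by_cases hxy : σ x = y0
        · filter_upwards [self_mem_nhdsWithin] with y hy hyx
          apply hy
          rw [mem_singleton_iff, ← hxy, ← hyx]
          simp
        · filter_upwards [mem_nhdsWithin_of_mem_nhds (isOpen_ne.mem_nhds (Ne.symm hxy))]
            with y hy hyx
          apply hy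
          rw [← hyx]
          simp
      exact h1.filter_mono inf_le_right
    have hform' : ∀ᶠ z in 𝓝 x ⊓ map σ.symm (𝓝[≠] y0),
        ((σ z = z + l ∨ σ z = -z + l) ∨ (σ z = z + m ∨ σ z = -z + m)) := by
      have h1 : ∀ᶠ z in 𝓝 x ⊓ map σ.symm (𝓝[≠] y0), z ≠ x →
          ((σ z = z + l ∨ σ z = -z + l) ∨ (σ z = z + m ∨ σ z = -z + m)) := by
        have h2 := eventually_nhdsWithin_iff.1 hform
        exact h2.filter_mono inf_le_left
      filter_upwards [h1, hne] with z h1 h2 using h1 h2
    have hid : Tendsto (fun z : S => z) (𝓝 x ⊓ map σ.symm (𝓝[≠] y0)) (𝓝 x) :=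
      tendsto_id.mono_left inf_le_left
    have hfr := hform'.frequently
    rw [frequently_or_distrib, frequently_or_distrib, frequently_or_distrib] at hfr
    have hxΛ := hF x hxF
    have key : ∀ c ∈ Λ, ∀ s : S → S, (s = (fun z => z + c) ∨ s = (fun z => -z + c)) →
        ¬ ∃ᶠ z in 𝓝 x ⊓ map σ.symm (𝓝[≠] y0), σ z = s z := by
      rintro c hc s (rfl | rfl) hfreq
      · have := tendsto_nhds_unique_of_frequently_eq ht0 (hid.add_const c) hfreq
        exact hcon (by rw [this]; exact Λ.add_mem hxΛ hc)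
      · have := tendsto_nhds_unique_of_frequently_eq ht0 (hid.neg.add_const c) hfreq
        exact hcon (by rw [this]; exact Λ.add_mem (Λ.neg_mem hxΛ) hc)
    rcases hfr with (h1 | h1) | (h1 | h1)
    · exact key l hl _ (Or.inl rfl) h1
    · exact key l hl _ (Or.inr rfl) h1
    · exact key m hm _ (Or.inl rfl) h1
    · exact key m hm _ (Or.inr rfl) h1
  · have h1 : Tendsto σ (𝓝 x ⊓ map σ.symm (𝓝[≠] y0)) (𝓝 (σ x)) :=
      (h x hxF).continuousAt.tendsto.mono_left inf_le_left
    have h2 := tendsto_nhds_unique ht0 h1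
    have h3 : x0 = x := σ.injective h2
    exact hxF (h3 ▸ hx0)

/-- The group of the permutations of the circle which off a finite subset of `Λ` are locally of the
form `x ↦ ± x + l` with `l ∈ Λ`. -/
def IEThat (Λ : AddSubgroup S) : Subgroup (Equiv.Perm S) where
  carrier := {σ | IsFlipIET Λ σ}
  one_mem' := by
    refine ⟨∅, by simp, fun x _ => ⟨0, Λ.zero_mem, Or.inl ?_⟩⟩
    filter_upwards with y
    simp
  mul_mem' := by
    rintro σ τ ⟨F, hF, hσ⟩ ⟨F', hF', hτ⟩
    refine ⟨F' ∪ F.image τ.symm, ?_, ?_⟩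
    · intro x hx
      rw [Finset.mem_union, Finset.mem_image] at hx
      rcases hx with hx | ⟨y, hy, rfl⟩
      · exact hF' x hx
      · by_contra hcon
        have h1 : τ.symm y ∉ F' := fun h => hcon (hF' _ h)
        obtain ⟨l, hl, h | h⟩ := hτ _ h1
        · have h2 := h.self_of_nhds
          rw [Equiv.apply_symm_apply] at h2
          apply hcon
          have : τ.symm y = y - l := by rw [eq_sub_iff_add_eq, ← h2]
          rw [this]
          exact Λ.sub_mem (hF y hy) hl
        · have h2 := h.self_of_nhds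
          rw [Equiv.apply_symm_apply] at h2
          apply hcon
          have : τ.symm y = l - y := by
            have h3 : y + τ.symm y = l := by
              nth_rewrite 1 [h2]; abel
            rw [← h3]; abel
          rw [this]
          exact Λ.sub_mem hl (hF y hy)
    · intro x hx
      rw [Finset.mem_union, not_or, Finset.mem_image] at hx
      have h1 : τ x ∉ F := fun h => hx.2 ⟨τ x, h, by simp⟩
      have hc : Tendsto τ (𝓝 x) (𝓝 (τ x)) := (hτ x hx.1).continuousAt
      obtain ⟨l, hl, hl'⟩ := hτ x hx.1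
      obtain ⟨m, hm, hm'⟩ := hσ _ h1
      rcases hm' with hm' | hm'
      · have hm'' := hc.eventually hm'
        rcases hl' with hl' | hl'
        · refine ⟨l + m, Λ.add_mem hl hm, Or.inl ?_⟩
          filter_upwards [hl', hm''] with y h1 h2
          rw [Equiv.Perm.mul_apply, h2, h1, add_assoc]
        · refine ⟨l + m, Λ.add_mem hl hm, Or.inr ?_⟩
          filter_upwards [hl', hm''] with y h1 h2
          rw [Equiv.Perm.mul_apply, h2, h1, add_assoc]
      · have hm'' := hc.eventually hm'
        rcases hl' with hl' | hl'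
        · refine ⟨-l + m, Λ.add_mem (Λ.neg_mem hl) hm, Or.inr ?_⟩
          filter_upwards [hl', hm''] with y h1 h2
          rw [Equiv.Perm.mul_apply, h2, h1]
          abel
        · refine ⟨-l + m, Λ.add_mem (Λ.neg_mem hl) hm, Or.inl ?_⟩
          filter_upwards [hl', hm''] with y h1 h2
          rw [Equiv.Perm.mul_apply, h2, h1]
          abel
  inv_mem' := by
    rintro σ ⟨F, hF, hσ⟩
    refine ⟨F.image σ, ?_, ?_⟩
    · intro y hy
      obtain ⟨x, hx, rfl⟩ := Finset.mem_image.1 hy
      exact map_mem hF hσ x hx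
    · intro y hy
      rw [Finset.mem_image, not_exists] at hy
      have h1 : σ.symm y ∉ F := fun h => hy _ ⟨h, by simp⟩
      obtain ⟨l, hl, h | h⟩ := hσ _ h1
      · have h2 := h.self_of_nhds
        rw [Equiv.apply_symm_apply] at h2
        have h3 : σ.symm y = y - l := by rw [eq_sub_iff_add_eq, ← h2]
        refine ⟨-l, Λ.neg_mem hl, Or.inl ?_⟩
        have ht : Tendsto (fun z : S => z - l) (𝓝 y) (𝓝 (σ.symm y)) := by
          rw [h3]
          exact tendsto_id.sub_const l
        filter_upwards [ht.eventually h] with z hz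
        rw [sub_add_cancel] at hz
        rw [Equiv.Perm.inv_eq_iff_eq, ← sub_eq_add_neg, hz]
      · have h2 := h.self_of_nhds
        rw [Equiv.apply_symm_apply] at h2
        have h3 : σ.symm y = l - y := by
          have : y + σ.symm y = l := by
            nth_rewrite 1 [h2]; abel
          rw [← this]; abel
        refine ⟨l, hl, Or.inr ?_⟩
        have ht : Tendsto (fun z : S => l - z) (𝓝 y) (𝓝 (σ.symm y)) := by
          rw [h3]
          exact tendsto_const_nhds.sub tendsto_id
        filter_upwards [ht.eventually h] with z hz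
        rw [Equiv.Perm.inv_eq_iff_eq]
        rw [neg_sub, sub_add_cancel] at hz
        have : -z + l = l - z := by abel
        rw [this, hz]

/-- The group `IET^⋈_Λ` of interval exchanges with flips, with breakpoints and translation parts in
`Λ`: the classes, modulo finitely supported permutations, of the permutations in `IEThat Λ`. -/
def IET (Λ : AddSubgroup S) : Subgroup (NearPerm S) :=
  (IEThat Λ).map (QuotientGroup.mk' (FinSupp S))

end basic

end Pool.Agent.T6.H54.Flip
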