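import Pool.Agent.T6.H54.FlipMaps

set_option autoImplicit false

open Set Filter Topology

namespace Pool.Agent.T6.H54.Flip

universe u v

variable {Λ : AddSubgroup S} {Y : Type v}

/-- closed ball of the circle -/
def B (l : S) (u : ℝ) : Set S := {x | ‖x - l‖ ≤ u}

lemma norm_eq_min (x : S) : ‖x‖ = min (cd x) (1 - cd x) := by
  conv_lhs => rw [← coe_cd x]
  rw [UnitAddCircle.norm_eq, abs_sub_round_eq_min, Int.fract_eq_self.2 ⟨cd_nonneg x, cd_lt_one x⟩]

lemma cd_neg {x : S} (hx : x ≠ 0) : cd (-x) = 1 - cd x := by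
  have h1 : ((1 : ℝ) : S) = 0 := AddCircle.coe_period 1
  have : -x = ((1 - cd x : ℝ) : S) := by
    rw [AddCircle.coe_sub, coe_cd, h1, zero_sub]
  rw [this, cd_coe (by linarith [cd_lt_one x]) (by linarith [cd_pos hx])]

lemma norm_sub_le_cd (x y : S) : ‖x - y‖ ≤ |cd x - cd y| := by
  have h1 : x - y = ((cd x - cd y : ℝ) : S) := by rw [AddCircle.coe_sub, coe_cd, coe_cd]
  rw [h1, UnitAddCircle.norm_eq]
  have := round_le (cd x - cd y) 0
  simpa using this

/-- the rotation by `α` -/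
noncomputable def TT (α : S) (hα : α ∈ Λ) : IEThat Λ := ⟨Equiv.addRight α, add_flip hα⟩

/-- the flip of the circle -/
noncomputable def ss (Λ : AddSubgroup S) : IEThat Λ := ⟨Equiv.neg S, neg_flip⟩

lemma ss_conj (α : S) (hα : α ∈ Λ) : ss Λ * TT α hα * (ss Λ)⁻¹ = (TT α hα)⁻¹ := by
  apply Subtype.ext
  ext x
  simp only [Subgroup.coe_mul, Subgroup.coe_inv, Equiv.Perm.mul_apply]
  change -(((Equiv.neg S)⁻¹ x) + α) = (Equiv.addRight α)⁻¹ x
  rw [eq_comm, Equiv.Perm.inv_eq_iff_eq]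
  have h2 : (Equiv.neg S)⁻¹ x = -x := by
    rw [Equiv.Perm.inv_eq_iff_eq]; simp
  rw [h2]
  change x = -(-x + α) + α
  abel

lemma TT_zpow (α : S) (hα : α ∈ Λ) (k : ℤ) (x : S) : (TT α hα ^ k).1 x = x + k • α := by
  have h : ∀ n : ℕ, ∀ x : S, (TT α hα ^ n).1 x = x + n • α := by
    intro n
    induction n with
    | zero => intro x; simp
    | succ n ih =>
      intro x
      rw [pow_succ', Subgroup.coe_mul, Equiv.Perm.mul_apply, ih]
      change x + n • α + α = _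
      rw [succ_nsmul, add_assoc]
  obtain ⟨n, rfl | rfl⟩ := k.eq_nat_or_neg
  · rw [zpow_natCast, h, natCast_zsmul]
  · rw [zpow_neg, zpow_natCast, Subgroup.coe_inv, Equiv.Perm.inv_eq_iff_eq, h, neg_smul,
      natCast_zsmul, neg_add_cancel_right]

/-- orbits of `R T` which are eventually `l + k α` -/
def Orb (L : Lift Λ Y) (α : S) (hα : α ∈ Λ) (l : S) (y : ℤ → S ⊕ Y) : Prop :=
  (∀ k, L.R (TT α hα) (y k) = y (k + 1)) ∧ ∃ k0 : ℤ, ∀ k ≥ k0, y k = Sum.inl (l + k • α)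

lemma orb_zpow (L : Lift Λ Y) {α : S} {hα : α ∈ Λ} {y : ℤ → S ⊕ Y}
    (hy : ∀ k, L.R (TT α hα) (y k) = y (k + 1)) (j k : ℤ) :
    L.R (TT α hα ^ j) (y k) = y (k + j) := by
  have h : ∀ n : ℕ, ∀ k : ℤ, L.R (TT α hα ^ n) (y k) = y (k + n) := by
    intro n
    induction n with
    | zero => intro k; simp
    | succ n ih =>
      intro k
      rw [pow_succ', map_mul, Equiv.Perm.mul_apply, ih, hy]
      congr 1; push_cast; ring
  obtain ⟨n, rfl | rfl⟩ := j.eq_nat_or_neg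
  · rw [zpow_natCast, h]
  · rw [zpow_neg, zpow_natCast, map_inv, Equiv.Perm.inv_eq_iff_eq, h]
    congr 1; ring

lemma zsmul_inj {α : S} (hinf : addOrderOf α = 0) {i j : ℤ} (h : i • α = j • α) : i = j := by
  by_contra hne
  rw [addOrderOf_eq_zero_iff] at hinf
  apply hinf
  rw [isOfFinAddOrder_iff_zsmul_eq_zero]
  exact ⟨i - j, sub_ne_zero.2 hne, by rw [sub_smul, h, sub_self]⟩

lemma Orb.inj {L : Lift Λ Y} {α : S} {hα : α ∈ Λ} (hinf : addOrderOf α = 0) {l : S}
    {y : ℤ → S ⊕ Y} (h : Orb L α hα l y) : Function.Injective y := by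
  intro i j hij
  obtain ⟨hy, k0, hk⟩ := h
  set m : ℤ := |k0| + |i| + |j| with hm
  have h1 : y (i + m) = y (j + m) := by
    rw [← orb_zpow L hy m i, ← orb_zpow L hy m j, hij]
  rw [hk (i + m) (by
      have := le_abs_self k0; have := neg_abs_le i; have := abs_nonneg j; omega),
    hk (j + m) (by
      have := le_abs_self k0; have := neg_abs_le j; have := abs_nonneg i; omega)] at h1
  have h2 := add_left_cancel (Sum.inl_injective h1)
  have := zsmul_inj hinf h2
  omega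

/-- a finite set is avoided by the tail of an injective sequence -/
lemma tail_avoid {X : Type*} {y : ℤ → X} (hy : Function.Injective y) {E : Set X} (hE : E.Finite) :
    ∃ k0 : ℤ, ∀ k ≥ k0, y k ∉ E := by
  have h1 : (y ⁻¹' E).Finite := hE.preimage hy.injOn
  obtain ⟨M, hM⟩ := h1.bddAbove
  refine ⟨M + 1, fun k hk hkE => ?_⟩
  have := hM hkE
  omega

lemma exists_orb (L : Lift Λ Y) {α : S} {hα : α ∈ Λ} {y : ℤ → S ⊕ Y}
    (hy : ∀ k, L.R (TT α hα) (y k) = y (k + 1)) (hinj : Function.Injective y) :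
    ∃ l, Orb L α hα l y := by
  obtain ⟨k0, hk0⟩ := tail_avoid hinj (L.near (TT α hα))
  have hstep : ∀ k ≥ k0, y (k + 1) = Equiv.Perm.sumCongr (Equiv.addRight α) 1 (y k) := by
    intro k hk
    have := hk0 k hk
    rw [mem_ofPred_eq, not_not] at this
    rw [← hy, this]
    rfl
  rcases hp : y k0 with p | b
  · refine ⟨p - k0 • α, hy, k0, fun k hk => ?_⟩
    obtain ⟨n, rfl⟩ := Int.le.dest hk
    clear hk
    induction n with
    | zero => simp [hp]
    | succ n ih =>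
      have h1 := hstep (k0 + n) (by omega)
      rw [ih] at h1
      have h2 : k0 + ((n + 1 : ℕ) : ℤ) = k0 + n + 1 := by push_cast; ring
      rw [h2, h1]
      simp only [Equiv.Perm.sumCongr_apply, Sum.map_inl]
      congr 1
      change _ + α = _
      rw [add_smul, add_smul, one_smul, add_smul]
      abel
  · exfalso
    have h1 := hstep k0 le_rfl
    rw [hp] at h1
    simp only [Equiv.Perm.sumCongr_apply, Sum.map_inr, Equiv.Perm.coe_one, id_eq] at h1
    rw [← hp] at h1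
    have := hinj h1
    omega

/-- the initial arc of length `w` -/
def arc (w : ℝ) : Set S := {x | cd x < w}

/-- rotation of an arc, as an element of the group -/
noncomputable def gg (c β : ℝ) (hc : c < 1) (h0 : 0 < β) (h1 : β < c) (hcΛ : (c : S) ∈ Λ)
    (hβΛ : (β : S) ∈ Λ) : IEThat Λ := ⟨rot c β hc h0 h1, rot_flip hc h0 h1 hcΛ hβΛ⟩

lemma gg_mem {c β : ℝ} (hc : c < 1) (h0 : 0 < β) (h1 : β < c) (hcΛ : (c : S) ∈ Λ)
    (hβΛ : (β : S) ∈ Λ) : gg c β hc h0 h1 hcΛ hβΛ ∈ Gam Λ (arc c) := by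
  have : {x | x ∉ arc c ∧ (gg c β hc h0 h1 hcΛ hβΛ).1 x ≠ x} = ∅ := by
    ext x
    simp only [mem_ofPred_eq, mem_empty_iff_false, iff_false, not_and, not_not]
    intro hx
    change rotFun c β x = x
    have hx' : ¬ cd x < c := hx
    rw [rotFun, if_neg hx']
  change {x | x ∉ arc c ∧ (gg c β hc h0 h1 hcΛ hβΛ).1 x ≠ x}.Finite
  rw [this]
  exact finite_empty

lemma gg_pow {c β : ℝ} (hc : c < 1) (h0 : 0 < β) (h1 : β < c) (hcΛ : (c : S) ∈ Λ)
    (hβΛ : (β : S) ∈ Λ) (n : ℕ) :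
    ((gg c β hc h0 h1 hcΛ hβΛ) ^ n).1 = rot c β hc h0 h1 ^ n := by
  rw [Subgroup.coe_pow]; rfl

lemma gg_inf {c β : ℝ} (hc : c < 1) (h0 : 0 < β) (h1 : β < c) (hcΛ : (c : S) ∈ Λ)
    (hβΛ : (β : S) ∈ Λ) (hβ : ∀ n : ℕ, 0 < n → ∀ m : ℤ, (n : ℝ) * β ≠ m * c) :
    ∀ x ∈ arc c, ∀ n : ℕ, 0 < n → ((gg c β hc h0 h1 hcΛ hβΛ).1 ^ n) x ≠ x := by
  intro x hx n hn h
  obtain ⟨m, hm0, hm1, hm⟩ := rot_iterate hc h0 h1 (cd_nonneg x) (show cd x < c from hx) n
  rw [coe_cd] at hm
  have h2 : ((gg c β hc h0 h1 hcΛ hβΛ).1 ^ n) x = (rot c β hc h0 h1 ^ n) x := rfl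
  rw [h2, hm] at h
  have h3 : cd x = cd x + n * β - m * c := by
    conv_lhs => rw [← h]
    exact cd_coe hm0 (by linarith)
  exact hβ n hn m (by linarith)

/-- **F4** -/
lemma orb_mem (L : Lift Λ Y) {α : S} {hα : α ∈ Λ} (hinf : addOrderOf α = 0) {l : S}
    {y : ℤ → S ⊕ Y} (h : Orb L α hα l y) {u : ℝ} (hu : 0 < u) : y 0 ∈ XX L (B l u) := by
  obtain ⟨w, hw0, hwu, hw1, hwΛ, hwirr⟩ := exists_irr hα hinf hu
  obtain ⟨β, hβ0, hβw, hβΛ, hβ⟩ := exists_beta hw0 hwΛ hwirr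
  have hcov := coverage L (gg_mem hw1 hβ0 hβw hwΛ hβΛ) (gg_inf hw1 hβ0 hβw hwΛ hβΛ hβ)
  obtain ⟨hy, k0, hk⟩ := h
  have hinj : Function.Injective (fun k : ℤ => l + k • α) := by
    intro i j hij
    exact zsmul_inj hinf (add_left_cancel hij)
  obtain ⟨k1, hk1⟩ := tail_avoid hinj hcov
  set K : ℤ := max k0 k1 with hK
  have hdense : DenseRange (fun n : ℕ => n • α) := by
    rw [← denseRange_zsmul_iff_nsmul]
    exact AddCircle.denseRange_zsmul_iff.2 hinf
  have hopen : IsOpen ((fun t : ℝ => (t : S)) '' Ioo 0 w) :=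
    QuotientAddGroup.isOpenMap_coe _ isOpen_Ioo
  have hopen2 : IsOpen ((fun z : S => l + K • α + z) ⁻¹' ((fun t : ℝ => (t : S)) '' Ioo 0 w)) :=
    hopen.preimage (by fun_prop)
  have hne : ((fun z : S => l + K • α + z) ⁻¹' ((fun t : ℝ => (t : S)) '' Ioo 0 w)).Nonempty := by
    refine ⟨((w/2 : ℝ) : S) - (l + K • α), ⟨w/2, ⟨by linarith, by linarith⟩, ?_⟩⟩
    simp
  obtain ⟨_, ⟨t, ht, hz⟩, ⟨n, rfl⟩⟩ := hdense.inter_open_nonempty _ hopen2 hne
  simp only at hz
  set k : ℤ := K + n with hkdef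
  have hkeq : l + k • α = (t : S) := by
    rw [hz, hkdef, add_smul, natCast_zsmul, add_assoc]
  have hkarc : l + k • α ∈ arc w := by
    rw [hkeq]
    change cd _ < w
    rw [cd_coe ht.1.le (by linarith [ht.2])]
    exact ht.2
  have hmem : y k ∈ XX L (arc w) := by
    have h1 := hk1 k (by
      have := le_max_right k0 k1; omega)
    simp only [mem_ofPred_eq, not_and, not_not] at h1
    rw [hk k (by have := le_max_left k0 k1; omega)]
    exact h1 hkarc
  have hsub : arc w ⊆ B (l + k • α) u := by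
    intro x hx
    refine (norm_sub_le_cd _ _).trans ?_
    have h1 : cd x < w := hx
    have h2 : cd (l + k • α) < w := hkarc
    have h3 := cd_nonneg x
    have h4 := cd_nonneg (l + k • α)
    rw [abs_le]
    constructor <;> linarith
  have h2 := XX_conj L (XX_mono L hsub hmem) (TT α hα ^ (-k))
  rw [orb_zpow L hy, add_neg_cancel] at h2
  refine XX_mono L ?_ h2
  rintro _ ⟨x, hx, rfl⟩
  change ‖_ - l‖ ≤ u
  rw [TT_zpow]
  have h3 : x + (-k) • α - l = x - (l + k • α) := by rw [neg_smul]; abel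
  rw [h3]
  exact hx

lemma self_orb (L : Lift Λ Y) (α : S) (hα : α ∈ Λ) (hinf : addOrderOf α = 0) :
    ∃ y, Orb L α hα 0 y := by
  have hinj : Function.Injective (fun k : ℤ => (Sum.inl (k • α) : S ⊕ Y)) := by
    intro i j hij
    exact zsmul_inj hinf (Sum.inl_injective hij)
  obtain ⟨k0, hk0⟩ := tail_avoid hinj (L.near (TT α hα))
  refine ⟨fun k => L.R (TT α hα ^ (k - k0)) (Sum.inl (k0 • α)), fun k => ?_, k0, fun k hk => ?_⟩
  · simp only
    rw [← Equiv.Perm.mul_apply, ← map_mul, ← zpow_one_add]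
    congr 3; ring
  · obtain ⟨n, rfl⟩ := Int.le.dest hk
    clear hk
    simp only [add_sub_cancel_left, zero_add]
    induction n with
    | zero => simp
    | succ n ih =>
      have h1 := hk0 (k0 + n) (by omega)
      rw [mem_ofPred_eq, not_not] at h1
      rw [zpow_natCast] at ih ⊢
      rw [pow_succ', map_mul, Equiv.Perm.mul_apply, ih, h1]
      simp only [Equiv.Perm.sumCongr_apply, Sum.map_inl]
      congr 1
      change _ + α = _
      push_cast
      rw [add_smul, add_smul, add_smul, one_smul]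
      abel

lemma disj_ball {l : S} (hl : l ≠ 0) : B l (‖l‖ / 3) ∩ B 0 (‖l‖ / 3) = ∅ := by
  ext x
  simp only [mem_inter_iff, mem_empty_iff_false, iff_false, not_and]
  intro h1 h2
  have h3 : ‖x - l‖ ≤ ‖l‖ / 3 := h1
  have h4 : ‖x - 0‖ ≤ ‖l‖ / 3 := h2
  have h5 : 0 < ‖l‖ := norm_pos_iff.2 hl
  have h6 : ‖l‖ ≤ ‖x - l‖ + ‖x - 0‖ := by
    have : l = (x - 0) - (x - l) := by abel
    conv_lhs => rw [this]
    rw [add_comm]
    exact norm_sub_le _ _
  linarith

/-- a point lies in the core of one of two almost disjoint sets at most -/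
lemma not_both_XX (L : Lift Λ Y) {U V : Set S} (hUV : (U ∩ V).Finite) {z : S ⊕ Y}
    (hU : z ∈ XX L U) (hV : z ∈ XX L V) : False := by
  obtain ⟨g, hg, hn⟩ := hV
  have := fix_of_disj L hUV hU hg
  exact hn 1 one_pos (by rw [pow_one]; exact this)

/-- **the special point** -/
lemma special (L : Lift Λ Y) (α : S) (hα : α ∈ Λ) (hinf : addOrderOf α = 0) :
    ∃ x0 : S ⊕ Y, L.R (ss Λ) x0 = x0 ∧ ∀ u : ℝ, 0 < u → x0 ∈ XX L (B 0 u) := by
  obtain ⟨x, hx⟩ := self_orb L α hα hinf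
  have hxinj := hx.inj hinf
  set y : ℤ → S ⊕ Y := fun k => L.R (ss Λ) (x (-k)) with hydef
  have hyT : ∀ k, L.R (TT α hα) (y k) = y (k + 1) := by
    intro k
    have h1 : TT α hα * ss Λ = ss Λ * (TT α hα)⁻¹ := by
      have h2 := ss_conj α hα
      have h3 : ss Λ * (TT α hα)⁻¹ * (ss Λ)⁻¹ = TT α hα := by
        rw [← conj_inv, h2, inv_inv]
      conv_lhs => rw [← h3]
      rw [inv_mul_cancel_right]
    rw [hydef]
    simp only
    rw [← Equiv.Perm.mul_apply, ← map_mul, h1, map_mul, Equiv.Perm.mul_apply]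
    congr 1
    have h5 := orb_zpow L hx.1 (-1) (-k)
    rw [zpow_neg, zpow_one] at h5
    rw [h5]
    congr 1; ring
  have hyinj : Function.Injective y := by
    intro i j hij
    have h1 := (L.R (ss Λ)).injective hij
    have := hxinj h1
    omega
  obtain ⟨l, hl⟩ := exists_orb L hyT hyinj
  have hball : ∀ u : ℝ, 0 < u → y 0 ∈ XX L (B 0 u) := by
    intro u hu
    have h1 := XX_conj L (orb_mem L hinf hx hu) (ss Λ)
    have h2 : y 0 = L.R (ss Λ) (x 0) := by simp [hydef]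
    rw [h2]
    refine XX_mono L ?_ h1
    rintro _ ⟨z, hz, rfl⟩
    change ‖-z - 0‖ ≤ u
    have h3 : ‖z - 0‖ ≤ u := hz
    rw [sub_zero, norm_neg]
    rwa [sub_zero] at h3
  have hl0 : l = 0 := by
    by_contra hne
    have hpos : 0 < ‖l‖ / 3 := by
      have := norm_pos_iff.2 hne
      positivity
    exact not_both_XX L (by rw [disj_ball hne]; exact finite_empty) (orb_mem L hinf hl hpos)
      (hball _ hpos)
  subst hl0
  have hxy : y 0 = x 0 := by
    obtain ⟨hxT, k1, hk1⟩ := hx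
    obtain ⟨-, k2, hk2⟩ := hl
    have h1 : y (max k1 k2) = x (max k1 k2) := by
      rw [hk1 _ (le_max_left _ _), hk2 _ (le_max_right _ _)]
    have h2 := orb_zpow L hyT (-(max k1 k2)) (max k1 k2)
    have h3 := orb_zpow L hxT (-(max k1 k2)) (max k1 k2)
    rw [add_neg_cancel] at h2 h3
    rw [← h2, ← h3, h1]
  refine ⟨x 0, ?_, fun u hu => orb_mem L hinf hx hu⟩
  rw [← hxy]
  have h2 : y 0 = L.R (ss Λ) (x 0) := by simp [hydef]
  rw [hxy, ← h2, hxy]

/-- **F6** -/
lemma fix_away (L : Lift Λ Y) {x0 : S ⊕ Y} (h0 : ∀ u : ℝ, 0 < u → x0 ∈ XX L (B 0 u))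
    {u : ℝ} (hu : 0 < u) {V : Set S} (hV : (B 0 u ∩ V).Finite) {h : IEThat Λ}
    (hh : h ∈ Gam Λ V) : L.R h x0 = x0 := fix_of_disj L hV (h0 u hu) hh

/-- **F7** -/
lemma fix_arc (L : Lift Λ Y) {α : S} (hα : α ∈ Λ) (hinf : addOrderOf α = 0) {x0 : S ⊕ Y}
    (hs : L.R (ss Λ) x0 = x0) (h0 : ∀ u : ℝ, 0 < u → x0 ∈ XX L (B 0 u)) :
    ∃ q : ℝ, 0 < q ∧ q < 1/2 ∧ (q : S) ∈ Λ ∧ ∀ f ∈ Gam Λ (arc q), L.R f x0 = x0 := by
  obtain ⟨c, hc0, hc2, hc1, hcΛ, hcirr⟩ := exists_irr hα hinf (show (0:ℝ) < 1/2 by norm_num)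
  obtain ⟨β, hβ0, hβc, hβΛ, hβ⟩ := exists_beta hc0 hcΛ hcirr
  have hnot : x0 ∉ XX L (arc c) := by
    intro hx
    have h1 := XX_conj L hx (ss Λ)
    rw [hs] at h1
    refine not_both_XX L ?_ h1 hx
    refine (finite_singleton (0 : S)).subset ?_
    rintro _ ⟨⟨z, hz, rfl⟩, hx2⟩
    change -z = 0
    by_contra hne
    have hz0 : z ≠ 0 := fun h => hne (by rw [h, neg_zero])
    have h3 : cd z < c := hz
    have h4 : cd (-z) < c := hx2
    rw [cd_neg hz0] at h4
    linarith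
  have hN : ∃ N : ℕ, 0 < N ∧ (L.R (gg c β hc1 hβ0 hβc hcΛ hβΛ) ^ N) x0 = x0 := by
    by_contra hcon
    push Not at hcon
    exact hnot ⟨_, gg_mem hc1 hβ0 hβc hcΛ hβΛ, hcon⟩
  obtain ⟨N, hN0, hN⟩ := hN
  obtain ⟨m, hm0, hm1, hm⟩ := rot_iterate hc1 hβ0 hβc (le_refl (0:ℝ)) hc0 N
  rw [zero_add] at hm0 hm1 hm
  set q : ℝ := N * β - m * c with hq
  have hq0 : 0 < q := by
    refine lt_of_le_of_ne hm0 fun h => hβ N hN0 m ?_
    linarith
  have hqΛ : (q : S) ∈ Λ := by
    rw [hq, AddCircle.coe_sub, show ((N : ℝ) * β : ℝ) = N • β by simp,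
      show ((m : ℝ) * c : ℝ) = m • c by simp, AddCircle.coe_nsmul, AddCircle.coe_zsmul]
    exact Λ.sub_mem (Λ.nsmul_mem hβΛ N) (Λ.zsmul_mem hcΛ m)
  refine ⟨q, hq0, by linarith, hqΛ, fun f hf => ?_⟩
  set G : IEThat Λ := gg c β hc1 hβ0 hβc hcΛ hβΛ ^ N with hG
  have hGx : L.R G x0 = x0 := by rw [hG, map_pow]; exact hN
  have hGcd : ∀ z : S, cd z < c - q → cd (G.1 z) = cd z + q := by
    intro z hz
    obtain ⟨m', hm0', hm1', hm'⟩ := rot_iterate hc1 hβ0 hβc (cd_nonneg z)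
      (show cd z < c by linarith) N
    rw [coe_cd] at hm'
    have h1 : m' = m := by
      have h2 : (cd z + N * β - m' * c) = cd z + q + (m - m') * c := by rw [hq]; ring
      rw [h2] at hm0' hm1'
      have h3 := cd_nonneg z
      have h4 : ((m : ℝ) - m') * c < 1 * c := by linarith
      have h5 : (-1) * c < ((m : ℝ) - m') * c := by linarith
      have h6 := lt_of_mul_lt_mul_right h4 hc0.le
      have h7 := lt_of_mul_lt_mul_right h5 hc0.le
      have h8 : m - m' < 1 := by exact_mod_cast h6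
      have h9 : -1 < m - m' := by exact_mod_cast h7
      omega
    rw [hG, gg_pow, hm', cd_coe hm0' (by linarith), h1, hq]
    ring
  have hGfix : ∀ z : S, c ≤ cd z → G.1 z = z := by
    intro z hz
    rw [hG, gg_pow]
    have h1 : (rot c β hc1 hβ0 hβc) z = z := by
      change rotFun c β z = z
      rw [rotFun, if_neg (not_lt.2 hz)]
    have h2 : ∀ n : ℕ, ((rot c β hc1 hβ0 hβc) ^ n) z = z := by
      intro n
      induction n with
      | zero => simp
      | succ n ih => rw [pow_succ, Equiv.Perm.mul_apply, h1, ih]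
    exact h2 N
  set u : ℝ := min ((c - q)/2) ((1 - c)/2) with hu
  have hu0 : 0 < u := lt_min (by linarith) (by linarith)
  have hu1 : u ≤ (c - q)/2 := min_le_left _ _
  have hu2 : u ≤ (1 - c)/2 := min_le_right _ _
  have hfix : L.R (G⁻¹ * f * G⁻¹⁻¹) x0 = x0 := by
    refine fix_away L h0 hu0 ?_ (Gam_conj hf G⁻¹)
    have : B 0 u ∩ (G⁻¹).1 '' arc q = ∅ := by
      ext z
      simp only [mem_inter_iff, mem_empty_iff_false, iff_false, not_and]
      rintro hz ⟨w, hw, hwz⟩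
      have h1 : G.1 z = w := by
        rw [← hwz, Subgroup.coe_inv]; simp
      have h2 : cd (G.1 z) < q := by rw [h1]; exact hw
      have h3 : ‖z - 0‖ ≤ u := hz
      rw [sub_zero, norm_eq_min] at h3
      rcases min_le_iff.1 h3 with h3 | h3
      · rw [hGcd z (by linarith)] at h2
        have := cd_nonneg z
        linarith
      · rw [hGfix z (by linarith)] at h2
        linarith
    rw [this]
    exact finite_empty
  rw [inv_inv, map_mul, map_mul, Equiv.Perm.mul_apply, Equiv.Perm.mul_apply, hGx, map_inv,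
    Equiv.Perm.inv_eq_iff_eq] at hfix
  rw [hfix]
  exact hGx

/-- **the contradiction** -/
theorem core (L : Lift Λ Y) {α : S} (hα : α ∈ Λ) (hinf : addOrderOf α = 0) : False := by
  obtain ⟨x0, hs, h0⟩ := special L α hα hinf
  obtain ⟨q, hq0, hq2, hqΛ, hq⟩ := fix_arc L hα hinf hs h0
  set b : IEThat Λ := ⟨flip q (by linarith), flip_flip (by linarith) hqΛ⟩ with hb
  have hbval : ∀ z, b.1 z = flipFun q z := fun z => rfl
  have hbmem : b ∈ Gam Λ (arc q) := by
    have : {x | x ∉ arc q ∧ b.1 x ≠ x} = ∅ := by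
      ext x
      simp only [mem_ofPred_eq, mem_empty_iff_false, iff_false, not_and, not_not]
      intro hx
      rw [hbval, flipFun, if_neg (fun h => hx h.2)]
    change {x | x ∉ arc q ∧ b.1 x ≠ x}.Finite
    rw [this]
    exact finite_empty
  have hbx : L.R b x0 = x0 := hq b hbmem
  set e : IEThat Λ := ss Λ * b * (ss Λ)⁻¹ * b with he
  have hsx : L.R (ss Λ)⁻¹ x0 = x0 := by
    rw [map_inv, Equiv.Perm.inv_eq_iff_eq, hs]
  have hex : L.R e x0 = x0 := by
    rw [he, map_mul, map_mul, map_mul, Equiv.Perm.mul_apply, Equiv.Perm.mul_apply,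
      Equiv.Perm.mul_apply, hbx, hsx, hbx, hs]
  have hsv : ∀ z : S, (ss Λ).1 z = -z := fun z => rfl
  have hsiv : ∀ z : S, ((ss Λ)⁻¹).1 z = -z := by
    intro z
    rw [Subgroup.coe_inv, Equiv.Perm.inv_eq_iff_eq, hsv, neg_neg]
  have hev : ∀ z : S, e.1 z = -(flipFun q (-(flipFun q z))) := by
    intro z
    rw [he]
    simp only [Subgroup.coe_mul, Equiv.Perm.mul_apply]
    rw [hsv, hbval, hsiv, hbval]
  have hfar : ∀ z : S, z ≠ 0 → z ∈ B 0 (q/3) → e.1 z ∉ B 0 (q/3) := by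
    intro z hz0 hz hez
    have h1 : ‖z - 0‖ ≤ q/3 := hz
    have h2 : ‖e.1 z - 0‖ ≤ q/3 := hez
    rw [sub_zero, norm_eq_min] at h1 h2
    have hzp := cd_pos hz0
    rcases min_le_iff.1 h1 with h1 | h1
    · have h3 : flipFun q z = ((q - cd z : ℝ) : S) := by
        rw [flipFun, if_pos ⟨hzp, by linarith⟩]
      have h4 : cd (flipFun q z) = q - cd z := by
        rw [h3]; exact cd_coe (by linarith) (by linarith)
      have h5 : flipFun q z ≠ 0 := by
        intro h; rw [h, cd_zero] at h4; linarith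
      have h6 : flipFun q (-(flipFun q z)) = -(flipFun q z) := by
        nth_rewrite 1 [flipFun]
        rw [if_neg]
        rw [cd_neg h5, h4]
        intro h; linarith [h.2]
      rw [hev, h6, neg_neg, h4] at h2
      rcases min_le_iff.1 h2 with h2 | h2 <;> linarith
    · have h3 : flipFun q z = z := by
        rw [flipFun, if_neg]
        intro h; linarith [h.2]
      have h4 : cd (-z) = 1 - cd z := cd_neg hz0
      have hz1 := cd_lt_one z
      have h5 : flipFun q (-z) = ((q - cd (-z) : ℝ) : S) := by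
        rw [flipFun, if_pos ⟨by linarith, by linarith⟩]
      have h6 : cd (flipFun q (-z)) = q - cd (-z) := by
        rw [h5]; exact cd_coe (by linarith) (by linarith)
      have h7 : flipFun q (-z) ≠ 0 := by
        intro h; rw [h, cd_zero] at h6; linarith
      rw [hev, h3, cd_neg h7, h6, h4] at h2
      rcases min_le_iff.1 h2 with h2 | h2 <;> linarith
  obtain ⟨f, hf, hfn⟩ := h0 (q/3) (by linarith)
  have h1 : L.R (e * f * e⁻¹) x0 = x0 := by
    refine fix_away L h0 (show (0:ℝ) < q/3 by linarith) ?_ (Gam_conj hf e)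
    refine (finite_singleton (e.1 0)).subset ?_
    rintro _ ⟨hx, ⟨z, hz, rfl⟩⟩
    by_cases hz0 : z = 0
    · rw [hz0]; rfl
    · exact absurd hx (hfar z hz0 hz)
  have h2 : L.R e⁻¹ x0 = x0 := by
    rw [map_inv, Equiv.Perm.inv_eq_iff_eq, hex]
  rw [map_mul, map_mul, Equiv.Perm.mul_apply, Equiv.Perm.mul_apply, h2] at h1
  have h3 : L.R f x0 = x0 := by
    have h4 : L.R e (L.R f x0) = L.R e x0 := by rw [h1, hex]
    exact (L.R e).injective h4
  exact hfn 1 one_pos (by rw [pow_one]; exact h3)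

end Pool.Agent.T6.H54.Flip
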