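import Pool.Agent.T6.H54.FlipCore

set_option autoImplicit false

open Set Filter Topology

namespace Pool.Agent.T6.H54.Flip

universe u v

variable {Λ : AddSubgroup S}

/-- the coordinate in `[0, 1)` -/
noncomputable def cd (x : S) : ℝ := (AddCircle.equivIco (1:ℝ) 0 x : ℝ)

lemma cd_nonneg (x : S) : 0 ≤ cd x := (AddCircle.equivIco (1:ℝ) 0 x).2.1

lemma cd_lt_one (x : S) : cd x < 1 := by
  have := (AddCircle.equivIco (1:ℝ) 0 x).2.2
  simpa [cd] using this

lemma coe_cd (x : S) : ((cd x : ℝ) : S) = x := AddCircle.coe_equivIco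

lemma cd_coe {t : ℝ} (h0 : 0 ≤ t) (h1 : t < 1) : cd (t : S) = t :=
  AddCircle.equivIco_coe_of_mem (by simpa using ⟨h0, h1⟩)

lemma cd_zero : cd (0 : S) = 0 := by
  have := cd_coe (le_refl (0:ℝ)) one_pos
  simpa using this

lemma cd_pos {x : S} (hx : x ≠ 0) : 0 < cd x := by
  refine lt_of_le_of_ne (cd_nonneg x) fun h => hx ?_
  rw [← coe_cd x, ← h]
  simp

lemma cd_cont {x : S} (hx : x ≠ 0) : ContinuousAt cd x := by
  have h : ContinuousAt (AddCircle.equivIco (1:ℝ) 0) x :=
    AddCircle.continuousAt_equivIco (1:ℝ) 0 (by simpa using hx)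
  exact continuous_subtype_val.continuousAt.comp h

lemma cd_inj {x y : S} (h : cd x = cd y) : x = y := by
  rw [← coe_cd x, ← coe_cd y, h]

/-- rotation by `β` of the arc `[0, c)` -/
noncomputable def rotFun (c β : ℝ) (x : S) : S :=
  if cd x < c then (if cd x + β < c then ((cd x + β : ℝ) : S) else ((cd x + β - c : ℝ) : S)) else x

lemma rotFun_inv {c β : ℝ} (hc : c < 1) (h0 : 0 < β) (h1 : β < c) (x : S) :
    rotFun c (c - β) (rotFun c β x) = x := by
  have hx0 := cd_nonneg x
  have hx1 := cd_lt_one x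
  by_cases h : cd x < c
  · by_cases h' : cd x + β < c
    · have e1 : rotFun c β x = ((cd x + β : ℝ) : S) := by simp [rotFun, h, h']
      have e2 : cd (rotFun c β x) = cd x + β := by
        rw [e1]; exact cd_coe (by linarith) (by linarith)
      unfold rotFun at e2 ⊢
      rw [e2, if_pos h', if_neg (by linarith)]
      conv_rhs => rw [← coe_cd x]
      congr 1; ring
    · have e1 : rotFun c β x = ((cd x + β - c : ℝ) : S) := by simp [rotFun, h, h']
      have e2 : cd (rotFun c β x) = cd x + β - c := by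
        rw [e1]; exact cd_coe (by linarith) (by linarith)
      unfold rotFun at e2 ⊢
      rw [e2, if_pos (by linarith), if_pos (by linarith)]
      conv_rhs => rw [← coe_cd x]
      congr 1; ring
  · have e1 : rotFun c β x = x := by simp [rotFun, h]
    rw [e1]; simp [rotFun, h]

/-- rotation by `β` of the arc `[0, c)`, as a permutation -/
noncomputable def rot (c β : ℝ) (hc : c < 1) (h0 : 0 < β) (h1 : β < c) : Equiv.Perm S where
  toFun := rotFun c β
  invFun := rotFun c (c - β)
  left_inv := rotFun_inv hc h0 h1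
  right_inv := by
    intro x
    have := rotFun_inv hc (β := c - β) (by linarith) (by linarith) x
    rwa [sub_sub_cancel] at this

lemma rot_flip {c β : ℝ} (hc : c < 1) (h0 : 0 < β) (h1 : β < c) (hcΛ : (c : S) ∈ Λ)
    (hβΛ : (β : S) ∈ Λ) : IsFlipIET Λ (rot c β hc h0 h1) := by
  classical
  refine ⟨{0, ((c - β : ℝ) : S), (c : S)}, ?_, ?_⟩
  · intro x hx
    simp only [Finset.mem_insert, Finset.mem_singleton] at hx
    rcases hx with rfl | rfl | rfl
    · exact Λ.zero_mem
    · rw [AddCircle.coe_sub]; exact Λ.sub_mem hcΛ hβΛ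
    · exact hcΛ
  · intro x hx
    simp only [Finset.mem_insert, Finset.mem_singleton, not_or] at hx
    obtain ⟨hx0, hx1, hx2⟩ := hx
    have hcd1 : cd x ≠ c - β := fun h => hx1 (by rw [← h, coe_cd])
    have hcd2 : cd x ≠ c := fun h => hx2 (by rw [← h, coe_cd])
    have hcont := cd_cont hx0
    rcases lt_or_gt_of_ne hcd1 with h | h
    · refine ⟨(β : S), hβΛ, Or.inl ?_⟩
      filter_upwards [hcont.eventually (gt_mem_nhds h)] with y hy
      have e1 : cd y < c := by linarith
      have e2 : cd y + β < c := by linarith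
      change rotFun c β y = _
      unfold rotFun
      rw [if_pos e1, if_pos e2, AddCircle.coe_add, coe_cd]
    · rcases lt_or_gt_of_ne hcd2 with h' | h'
      · refine ⟨((β - c : ℝ) : S), by rw [AddCircle.coe_sub]; exact Λ.sub_mem hβΛ hcΛ, Or.inl ?_⟩
        filter_upwards [hcont.eventually (gt_mem_nhds h'), hcont.eventually (lt_mem_nhds h)]
          with y hy1 hy2
        have e2 : ¬ cd y + β < c := by linarith
        change rotFun c β y = _
        unfold rotFun
        rw [if_pos hy1, if_neg e2, add_sub_assoc, AddCircle.coe_add, coe_cd]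
      · refine ⟨0, Λ.zero_mem, Or.inl ?_⟩
        filter_upwards [hcont.eventually (lt_mem_nhds h')] with y hy
        change rotFun c β y = _
        unfold rotFun
        rw [if_neg (not_lt.2 hy.le), add_zero]

lemma rot_iterate {c β : ℝ} (hc : c < 1) (h0 : 0 < β) (h1 : β < c) {t : ℝ} (ht0 : 0 ≤ t)
    (htc : t < c) (n : ℕ) : ∃ m : ℤ, 0 ≤ t + n * β - m * c ∧ t + n * β - m * c < c ∧
      (rot c β hc h0 h1 ^ n) (t : S) = ((t + n * β - m * c : ℝ) : S) := by
  induction n with
  | zero => exact ⟨0, by simpa using ht0, by simpa using htc, by simp⟩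
  | succ n ih =>
    obtain ⟨m, hm0, hm1, hm⟩ := ih
    rw [pow_succ', Equiv.Perm.mul_apply, hm]
    change ∃ m' : ℤ, _ ∧ _ ∧ rotFun c β _ = _
    have hcd : cd ((t + n * β - m * c : ℝ) : S) = t + n * β - m * c :=
      cd_coe hm0 (by linarith)
    unfold rotFun
    rw [hcd, if_pos hm1]
    by_cases h : t + n * β - m * c + β < c
    · refine ⟨m, ?_, ?_, ?_⟩
      · push_cast; linarith
      · push_cast; linarith
      · rw [if_pos h]; congr 1; push_cast; ring
    · refine ⟨m + 1, ?_, ?_, ?_⟩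
      · push_cast; linarith
      · push_cast; linarith
      · rw [if_neg h]; congr 1; push_cast; ring

/-- flip of the open arc `(0, q)` -/
noncomputable def flipFun (q : ℝ) (x : S) : S :=
  if 0 < cd x ∧ cd x < q then ((q - cd x : ℝ) : S) else x

lemma flipFun_flipFun {q : ℝ} (hq : q < 1) (x : S) : flipFun q (flipFun q x) = x := by
  by_cases h : 0 < cd x ∧ cd x < q
  · have e1 : flipFun q x = ((q - cd x : ℝ) : S) := by simp [flipFun, h]
    have e2 : cd (flipFun q x) = q - cd x := by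
      rw [e1]; exact cd_coe (by linarith [h.2]) (by linarith [h.1])
    rw [flipFun, e2, if_pos ⟨by linarith [h.2], by linarith [h.1]⟩, sub_sub_cancel, coe_cd]
  · have e1 : flipFun q x = x := by
      rw [flipFun, if_neg h]
    rw [e1, e1]

/-- flip of the open arc `(0, q)`, as a permutation -/
noncomputable def flip (q : ℝ) (hq : q < 1) : Equiv.Perm S where
  toFun := flipFun q
  invFun := flipFun q
  left_inv := flipFun_flipFun hq
  right_inv := flipFun_flipFun hq

lemma flip_flip {q : ℝ} (hq : q < 1) (hqΛ : (q : S) ∈ Λ) :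
    IsFlipIET Λ (flip q hq) := by
  classical
  refine ⟨{0, (q : S)}, ?_, ?_⟩
  · intro x hx
    simp only [Finset.mem_insert, Finset.mem_singleton] at hx
    rcases hx with rfl | rfl
    · exact Λ.zero_mem
    · exact hqΛ
  · intro x hx
    simp only [Finset.mem_insert, Finset.mem_singleton, not_or] at hx
    obtain ⟨hx0, hx1⟩ := hx
    have hcd1 : cd x ≠ q := fun h => hx1 (by rw [← h, coe_cd])
    have hcont := cd_cont hx0
    rcases lt_or_gt_of_ne hcd1 with h | h
    · refine ⟨(q : S), hqΛ, Or.inr ?_⟩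
      filter_upwards [hcont.eventually (gt_mem_nhds h),
        hcont.eventually (lt_mem_nhds (cd_pos hx0))] with y hy1 hy2
      change flipFun q y = _
      rw [flipFun, if_pos ⟨hy2, hy1⟩, AddCircle.coe_sub, coe_cd]
      abel
    · refine ⟨0, Λ.zero_mem, Or.inl ?_⟩
      filter_upwards [hcont.eventually (lt_mem_nhds h)] with y hy
      change flipFun q y = _
      rw [flipFun, if_neg (fun h => absurd h.2 (not_lt.2 hy.le)), add_zero]

lemma add_flip {α : S} (hα : α ∈ Λ) : IsFlipIET Λ (Equiv.addRight α) := by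
  refine ⟨∅, by simp, fun x _ => ⟨α, hα, Or.inl ?_⟩⟩
  filter_upwards with y
  simp

lemma neg_flip : IsFlipIET Λ (Equiv.neg S) := by
  refine ⟨∅, by simp, fun x _ => ⟨0, Λ.zero_mem, Or.inr ?_⟩⟩
  filter_upwards with y
  simp

/-! ### parameters -/

lemma exists_irr {α : S} (hα : α ∈ Λ) (hinf : addOrderOf α = 0) {ε : ℝ} (hε : 0 < ε) :
    ∃ w : ℝ, 0 < w ∧ w < ε ∧ w < 1 ∧ (w : S) ∈ Λ ∧ Irrational w := by
  have hdense : DenseRange (fun n : ℤ => n • α) := AddCircle.denseRange_zsmul_iff.2 hinf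
  have hopen : IsOpen ((fun t : ℝ => (t : S)) '' Ioo 0 (min ε 1)) :=
    QuotientAddGroup.isOpenMap_coe _ isOpen_Ioo
  obtain ⟨_, ⟨t, ht, rfl⟩, ⟨n, hn⟩⟩ := hdense.inter_open_nonempty _ hopen
    ((nonempty_Ioo.2 (lt_min hε one_pos)).image _)
  simp only at hn
  have ht1 : t < 1 := lt_of_lt_of_le ht.2 (min_le_right _ _)
  refine ⟨t, ht.1, lt_of_lt_of_le ht.2 (min_le_left _ _), ht1, ?_, ?_⟩
  · rw [← hn]; exact Λ.zsmul_mem hα n
  · have hn0 : n ≠ 0 := by
      rintro rfl
      rw [zero_smul] at hn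
      have h1 : cd (t : S) = t := cd_coe ht.1.le ht1
      rw [← hn, cd_zero] at h1
      exact ht.1.ne h1
    rintro ⟨r, hr⟩
    -- `r • 1` has finite order
    have hfin : IsOfFinAddOrder ((t : ℝ) : S) := by
      rw [← hr, AddCircle.isOfFinAddOrder_iff_exists_rat_eq_div]
      exact ⟨r, by simp⟩
    rw [← hn] at hfin
    rw [addOrderOf_eq_zero_iff] at hinf
    apply hinf
    rw [isOfFinAddOrder_iff_zsmul_eq_zero] at hfin ⊢
    obtain ⟨k, hk, hk'⟩ := hfin
    refine ⟨k * n, mul_ne_zero hk hn0, ?_⟩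
    rw [mul_smul, hk']

lemma exists_beta {w : ℝ} (hw0 : 0 < w) (hw : (w : S) ∈ Λ) (hirr : Irrational w) :
    ∃ β : ℝ, 0 < β ∧ β < w ∧ (β : S) ∈ Λ ∧ ∀ n : ℕ, 0 < n → ∀ m : ℤ, (n : ℝ) * β ≠ m * w := by
  set k : ℤ := ⌊1 / w⌋ with hk
  have h1 : (k : ℝ) ≤ 1 / w := Int.floor_le _
  have h2 : 1 / w < k + 1 := Int.lt_floor_add_one _
  have h3 : (k : ℝ) * w ≤ 1 := by rwa [le_div_iff₀ hw0] at h1
  have h4 : 1 < (k + 1) * w := by rwa [div_lt_iff₀ hw0] at h2
  have hkey : ∀ n : ℕ, 0 < n → ∀ m : ℤ, (n : ℝ) * (1 - k * w) ≠ m * w := by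
    intro n hn m h
    have h5 : (n : ℝ) = ((m + n * k : ℤ) : ℝ) * w := by push_cast; linarith
    have hne : ((m + n * k : ℤ) : ℝ) ≠ 0 := by
      intro h0
      rw [h0, zero_mul] at h5
      have : (n : ℝ) ≠ 0 := by exact_mod_cast hn.ne'
      exact this h5
    apply hirr
    refine ⟨(n : ℚ) / ((m + n * k : ℤ) : ℚ), ?_⟩
    rw [Rat.cast_div, Rat.cast_natCast, Rat.cast_intCast, h5]
    field_simp
  have hpos : 0 < 1 - (k : ℝ) * w := by
    refine lt_of_le_of_ne (by linarith) fun h => ?_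
    apply hkey 1 one_pos 0
    rw [← h]; simp
  refine ⟨1 - k * w, hpos, by linarith, ?_, hkey⟩
  rw [AddCircle.coe_sub, show ((k : ℝ) * w : ℝ) = k • w by simp, AddCircle.coe_zsmul]
  have : ((1 : ℝ) : S) = 0 := AddCircle.coe_period 1
  rw [this, zero_sub]
  exact Λ.neg_mem (Λ.zsmul_mem hw k)

end Pool.Agent.T6.H54.Flip
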